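import Pool.Agent.Lib.MP_4fbe7c_an.FC.Iface2
import Pool.Agent.Lib.MP_4fbe7c_an.SD.Int

/-!
Module CLA (helper78) of the project FC.
-/

set_option autoImplicit false

open Set MeasureTheory

namespace Pool.Agent.Lib.MP_4fbe7c_an.FC.H78

open Pool.Agent.Lib.MP_4fbe7c_an.SD Pool.Agent.Lib.MP_4fbe7c_an.FC

theorem cla : ClAStatement := by
  intro L σ K ε θ θ' N i₀ A φ hL hσ hε hθ hθ' hθ0 hφ hi
  have hθc : ContinuousOn θ (Icc 0 L) := hθ.continuousOn
  have hne : (Icc 0 L).Nonempty := ⟨0, left_mem_Icc.2 hL.le⟩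
  -- lower bound of `θ`
  obtain ⟨τ, hτ0, hτ⟩ : ∃ τ : ℝ, 0 < τ ∧ ∀ x ∈ Icc 0 L, τ ≤ θ x := by
    obtain ⟨x₀, hx₀, hmin⟩ := isCompact_Icc.exists_isMinOn hne hθc
    exact ⟨θ x₀, hθ0 x₀ hx₀, fun x hx => hmin hx⟩
  -- bound of the weights
  have hsc : ContinuousOn (fun x => ∑ j ∈ A, √(φ j x)) (Icc 0 L) :=
    continuousOn_finset_sum _ fun j hj => (hφ j hj).sqrt
  obtain ⟨B, hB0, hB⟩ : ∃ B : ℝ, 0 ≤ B ∧ ∀ x ∈ Icc 0 L, ∑ j ∈ A, √(φ j x) ≤ B := by
    obtain ⟨B, hB⟩ := isCompact_Icc.exists_bound_of_continuousOn hsc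
    refine ⟨B, (norm_nonneg _).trans (hB 0 (left_mem_Icc.2 hL.le)), fun x hx => ?_⟩
    exact (le_abs_self _).trans (hB x hx)
  obtain ⟨C₂, hC₂⟩ : ∃ C₂, C₂ = max K 1 := ⟨_, rfl⟩
  have hC₂0 : 0 < C₂ := by rw [hC₂]; exact lt_max_of_lt_right one_pos
  have hKC : K ≤ C₂ := by rw [hC₂]; exact le_max_left _ _
  obtain ⟨C₁, hC₁⟩ : ∃ C₁, C₁ = 2 * C₂ + 2 * ∫ x in (0)..L, θ' x ^ 2 := ⟨_, rfl⟩
  have hθi0 : 0 ≤ ∫ x in (0)..L, θ' x ^ 2 :=
    intervalIntegral.integral_nonneg hL.le fun x _ => sq_nonneg _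
  have hC₁0 : 0 < C₁ := by rw [hC₁]; linarith
  obtain ⟨h₂, hh₂, H₂⟩ := sup_small (L := L) (C := C₁) (ε := ε) hL hε hC₁0
  obtain ⟨ε₁, hε₁⟩ : ∃ ε₁, ε₁ = min (min ε 1) (τ * h₂ / (4 * L * B ^ 2 + 1)) := ⟨_, rfl⟩
  have hden : 0 < 4 * L * B ^ 2 + 1 := by positivity
  have hε₁0 : 0 < ε₁ := by
    rw [hε₁]
    exact lt_min (lt_min hε one_pos) (by positivity)
  have hε₁ε : ε₁ ≤ ε := by rw [hε₁]; exact (min_le_left _ _).trans (min_le_left _ _)
  have hε₁1 : ε₁ ≤ 1 := by rw [hε₁]; exact (min_le_left _ _).trans (min_le_right _ _)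
  have hε₁h : ε₁ * (4 * L * B ^ 2 + 1) ≤ τ * h₂ := by
    rw [← le_div_iff₀ hden, hε₁]
    exact min_le_right _ _
  obtain ⟨h₁, hh₁, H₁⟩ := sup_small (L := L) (C := C₂) (ε := ε₁) hL hε₁0 hC₂0
  refine ⟨min (σ * h₁) (τ * h₂ / 4), lt_min (by positivity) (by positivity), ?_⟩
  intro f f' hf hf' hf0 hfK hD
  have hfc : ∀ k, ContinuousOn (f k) (Icc 0 L) := fun k => (hf k).continuousOn
  have hD1 := hD.trans (min_le_left _ _)
  have hD2 := hD.trans (min_le_right _ _)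
  obtain ⟨S, hS⟩ : ∃ S : ℝ → ℝ, S = fun x => ∑ j ∈ A, √(φ j x) * f j x := ⟨_, rfl⟩
  have hSc : ContinuousOn S (Icc 0 L) := by
    rw [hS]
    exact continuousOn_finset_sum _ fun j hj => (hφ j hj).sqrt.mul (hfc j)
  obtain ⟨s, hs⟩ : ∃ s : ℝ → ℝ, s = fun x => ∑ j ∈ A, f j x := ⟨_, rfl⟩
  have hsc' : ContinuousOn s (Icc 0 L) := by
    rw [hs]
    exact continuousOn_finset_sum _ fun j _ => hfc j
  have hs0 : ∀ x ∈ Icc 0 L, 0 ≤ s x := by
    intro x hx
    rw [hs]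
    exact Finset.sum_nonneg fun j _ => hf0 j x hx
  obtain ⟨g, hg⟩ : ∃ g : ℝ → ℝ, g = fun x => √(θ x) * f i₀ x + S x - √(θ x) ^ 3 := ⟨_, rfl⟩
  have hgc : ContinuousOn g (Icc 0 L) := by
    rw [hg]
    exact ((hθc.sqrt.mul (hfc i₀)).add hSc).sub (hθc.sqrt.pow 3)
  have hDA : DA L σ i₀ A θ φ f = ∫ x in (0)..L, (σ * s x + g x ^ 2) := by
    rw [hs, hg, hS]
    rfl
  rw [hDA] at hD1 hD2
  have hDi : IntervalIntegrable (fun x => σ * s x + g x ^ 2) volume 0 L :=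
    ((continuousOn_const.mul hsc').add (hgc.pow 2)).intervalIntegrable_of_Icc hL.le
  -- the species of `A` are small
  have hA : ∀ j ∈ A, ∀ x ∈ Icc 0 L, |f j x| < ε₁ := by
    intro j hj
    refine H₁ (f j) (f' j) (hf j) (hf' j) ((hfK j).trans hKC) (Or.inl ?_)
    have h1 : ∫ x in (0)..L, σ * |f j x| ≤ ∫ x in (0)..L, (σ * s x + g x ^ 2) := by
      refine intervalIntegral.integral_mono_on hL.le
        ((continuousOn_const.mul (hfc j).abs).intervalIntegrable_of_Icc hL.le) hDi ?_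
      intro x hx
      have h2 : |f j x| ≤ s x := by
        rw [abs_of_nonneg (hf0 j x hx), hs]
        exact Finset.single_le_sum (f := fun j => f j x) (fun k _ => hf0 k x hx) hj
      have h3 : σ * |f j x| ≤ σ * s x := mul_le_mul_of_nonneg_left h2 hσ.le
      have h4 : 0 ≤ g x ^ 2 := sq_nonneg _
      linarith
    rw [intervalIntegral.integral_const_mul] at h1
    exact le_of_mul_le_mul_left (h1.trans hD1) hσ
  have hSb : ∀ x ∈ Icc 0 L, |S x| ≤ B * ε₁ := by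
    intro x hx
    rw [hS]
    simp only
    calc |∑ j ∈ A, √(φ j x) * f j x| ≤ ∑ j ∈ A, |√(φ j x) * f j x| :=
          Finset.abs_sum_le_sum_abs _ _
      _ ≤ ∑ j ∈ A, √(φ j x) * ε₁ := by
          apply Finset.sum_le_sum
          intro j hj
          rw [abs_mul, abs_of_nonneg (Real.sqrt_nonneg _)]
          exact mul_le_mul_of_nonneg_left (hA j hj x hx).le (Real.sqrt_nonneg _)
      _ = (∑ j ∈ A, √(φ j x)) * ε₁ := by rw [Finset.sum_mul]
      _ ≤ B * ε₁ := mul_le_mul_of_nonneg_right (hB x hx) hε₁0.le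
  -- the slowest species is close to `θ`
  have h0 : ∀ x ∈ Icc 0 L, |(fun x => f i₀ x - θ x) x| < ε := by
    refine H₂ (fun x => f i₀ x - θ x) (fun x => f' i₀ x - θ' x)
      (fun x hx => (hf i₀ x hx).sub (hθ x hx)) ((hf' i₀).sub hθ') ?_ (Or.inr ?_)
    · have h1 : ∫ x in (0)..L, (f' i₀ x - θ' x) ^ 2 ≤
          ∫ x in (0)..L, (2 * f' i₀ x ^ 2 + 2 * θ' x ^ 2) := by
        refine intervalIntegral.integral_mono_on hL.le
          ((((hf' i₀).sub hθ').pow 2).intervalIntegrable_of_Icc hL.le)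
          (((continuousOn_const.mul ((hf' i₀).pow 2)).add
            (continuousOn_const.mul (hθ'.pow 2))).intervalIntegrable_of_Icc hL.le) ?_
        intro x _
        have : 0 ≤ (f' i₀ x + θ' x) ^ 2 := sq_nonneg _
        linarith [this, show (f' i₀ x - θ' x) ^ 2 + (f' i₀ x + θ' x) ^ 2 =
          2 * f' i₀ x ^ 2 + 2 * θ' x ^ 2 by ring]
      have i1 : IntervalIntegrable (fun x => 2 * f' i₀ x ^ 2) volume 0 L :=
        (continuousOn_const.mul ((hf' i₀).pow 2)).intervalIntegrable_of_Icc hL.le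
      have i2 : IntervalIntegrable (fun x => 2 * θ' x ^ 2) volume 0 L :=
        (continuousOn_const.mul (hθ'.pow 2)).intervalIntegrable_of_Icc hL.le
      rw [intervalIntegral.integral_add i1 i2,
        intervalIntegral.integral_const_mul, intervalIntegral.integral_const_mul] at h1
      have h2 := (hfK i₀).trans hKC
      rw [hC₁]
      linarith
    · have h1 : ∫ x in (0)..L, τ * (f i₀ x - θ x) ^ 2 ≤
          ∫ x in (0)..L, (2 * (σ * s x + g x ^ 2) + 2 * (B * ε₁) ^ 2) := by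
        refine intervalIntegral.integral_mono_on hL.le
          ((continuousOn_const.mul (((hfc i₀).sub hθc).pow 2)).intervalIntegrable_of_Icc hL.le)
          (((continuousOn_const.mul ((continuousOn_const.mul hsc').add (hgc.pow 2))).add
            continuousOn_const).intervalIntegrable_of_Icc hL.le) ?_
        intro x hx
        have hθx := hθ0 x hx
        have e1 : √(θ x) ^ 2 = θ x := Real.sq_sqrt hθx.le
        have e2 : g x - S x = √(θ x) * (f i₀ x - θ x) := by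
          rw [hg]
          simp only
          calc √(θ x) * f i₀ x + S x - √(θ x) ^ 3 - S x =
              √(θ x) * (f i₀ x - √(θ x) ^ 2) := by ring
            _ = _ := by rw [e1]
        have e3 : (g x - S x) ^ 2 = θ x * (f i₀ x - θ x) ^ 2 := by
          rw [e2, mul_pow, e1]
        have h3 : (g x - S x) ^ 2 ≤ 2 * g x ^ 2 + 2 * S x ^ 2 := by
          have : 0 ≤ (g x + S x) ^ 2 := sq_nonneg _
          linarith [this, show (g x - S x) ^ 2 + (g x + S x) ^ 2 =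
            2 * g x ^ 2 + 2 * S x ^ 2 by ring]
        have h4 : S x ^ 2 ≤ (B * ε₁) ^ 2 := by
          rw [← sq_abs (S x)]
          exact pow_le_pow_left₀ (abs_nonneg _) (hSb x hx) 2
        have h5 : τ * (f i₀ x - θ x) ^ 2 ≤ θ x * (f i₀ x - θ x) ^ 2 :=
          mul_le_mul_of_nonneg_right (hτ x hx) (sq_nonneg _)
        have h6 : 0 ≤ σ * s x := mul_nonneg hσ.le (hs0 x hx)
        linarith
      rw [intervalIntegral.integral_add (hDi.const_mul 2) intervalIntegrable_const,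
        intervalIntegral.integral_const_mul, intervalIntegral.integral_const_mul,
        intervalIntegral.integral_const, smul_eq_mul, sub_zero] at h1
      have h2 : L * (2 * (B * ε₁) ^ 2) ≤ τ * h₂ / 2 := by
        have h3 : ε₁ ^ 2 ≤ ε₁ := by
          calc ε₁ ^ 2 = ε₁ * ε₁ := by ring
            _ ≤ ε₁ * 1 := mul_le_mul_of_nonneg_left hε₁1 hε₁0.le
            _ = ε₁ := mul_one _
        have h4 : 2 * L * B ^ 2 * ε₁ ^ 2 ≤ 2 * L * B ^ 2 * ε₁ :=
          mul_le_mul_of_nonneg_left h3 (by positivity)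
        have h5 : ε₁ * (4 * L * B ^ 2 + 1) = 2 * (2 * L * B ^ 2 * ε₁) + ε₁ := by ring
        have h6 : L * (2 * (B * ε₁) ^ 2) = 2 * L * B ^ 2 * ε₁ ^ 2 := by ring
        rw [h5] at hε₁h
        rw [h6]
        linarith
      have h3 : τ * ∫ x in (0)..L, (f i₀ x - θ x) ^ 2 ≤ τ * h₂ := by linarith
      exact le_of_mul_le_mul_left h3 hτ0
  intro x hx
  refine ⟨h0 x hx, fun j hj => ?_⟩
  exact (le_abs_self _).trans_lt ((hA j hj x hx).trans_le hε₁ε)

end Pool.Agent.Lib.MP_4fbe7c_an.FC.H78
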