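import Pool.Agent.Lib.MP_4fbe7c_an.FC.Iface2
import Pool.Agent.Lib.MP_4fbe7c_an.SD.Int

/-!
Module TSU (helper78) of the project FC.
-/

set_option autoImplicit false

open Set MeasureTheory

namespace Pool.Agent.Lib.MP_4fbe7c_an.FC.H78

open Pool.Agent.Lib.MP_4fbe7c_an.SD Pool.Agent.Lib.MP_4fbe7c_an.FC

theorem abs_exp_sub_one (a : ℝ) : |Real.exp a - 1| ≤ |a| * Real.exp |a| := by
  have h1 : a + 1 ≤ Real.exp a := Real.add_one_le_exp a
  have h2 : -a + 1 ≤ Real.exp (-a) := Real.add_one_le_exp (-a)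
  have h3 : Real.exp (-a) * Real.exp a = 1 := by
    rw [← Real.exp_add]; simp
  have h4 : (-a + 1) * Real.exp a ≤ 1 := by
    calc (-a + 1) * Real.exp a ≤ Real.exp (-a) * Real.exp a :=
          mul_le_mul_of_nonneg_right h2 (Real.exp_pos a).le
      _ = 1 := h3
  have h5 : 1 ≤ Real.exp |a| := Real.one_le_exp (abs_nonneg a)
  have h6 : Real.exp a ≤ Real.exp |a| := Real.exp_le_exp.2 (le_abs_self a)
  rw [abs_le]
  constructor
  · have h7 : |a| * 1 ≤ |a| * Real.exp |a| := mul_le_mul_of_nonneg_left h5 (abs_nonneg a)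
    have h8 : -|a| ≤ a := neg_abs_le a
    linarith
  · have h7 : a * Real.exp a ≤ |a| * Real.exp |a| :=
      mul_le_mul (le_abs_self a) h6 (Real.exp_pos a).le (abs_nonneg a)
    linarith

theorem tsu : TsuStatement := by
  intro L K P κ f f' ψ hL hK hκ hf hf' hψ hfB hψP hψ0 hyK
  have hfc : ContinuousOn f (Icc 0 L) := hf.continuousOn
  have hP : 0 ≤ P := (abs_nonneg _).trans (hψP 0 (left_mem_Icc.2 hL.le))
  have hq : ContinuousOn (fun x => f' x / f x) (Icc 0 L) :=
    hf'.div hfc fun x hx => (hfB x hx).ne'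
  obtain ⟨y, hy⟩ : ∃ y, y = ∫ x in (0)..L, (f' x / f x) ^ 2 := ⟨_, rfl⟩
  rw [← hy] at hyK ⊢
  have hy0 : 0 ≤ y := by
    rw [hy]
    exact intervalIntegral.integral_nonneg hL.le fun x _ => sq_nonneg _
  -- the logarithm
  have hlog : DerivOn L (fun x => Real.log (f x)) (fun x => f' x / f x) := by
    intro x hx
    exact (hf x hx).log (hfB x hx).ne'
  have hlc : ContinuousOn (fun x => Real.log (f x)) (Icc 0 L) := hlog.continuousOn
  have hli : IntervalIntegrable (fun x => Real.log (f x)) volume 0 L :=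
    hlc.intervalIntegrable_of_Icc hL.le
  obtain ⟨μ, hμ⟩ : ∃ μ, μ = (∫ x in (0)..L, Real.log (f x)) / L := ⟨_, rfl⟩
  rw [← hμ]
  -- deviation from the mean
  have hdev : ∀ s : ℝ, (∀ x ∈ Icc 0 L, ∀ z ∈ Icc 0 L,
      |Real.log (f x) - Real.log (f z)| ≤ s) → ∀ x ∈ Icc 0 L, |Real.log (f x) - μ| ≤ s := by
    intro s hs x hx
    have e1 : Real.log (f x) - μ = (∫ z in (0)..L, (Real.log (f x) - Real.log (f z))) / L := by
      rw [intervalIntegral.integral_sub intervalIntegrable_const hli,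
        intervalIntegral.integral_const, hμ, smul_eq_mul]
      field_simp
      ring
    have e2 := intervalIntegral.norm_integral_le_of_norm_le_const (a := (0 : ℝ)) (b := L)
      (f := fun z => Real.log (f x) - Real.log (f z)) (C := s) (fun z hz => by
        rw [uIoc_of_le hL.le] at hz
        rw [Real.norm_eq_abs]
        exact hs x hx z ⟨hz.1.le, hz.2⟩)
    rw [Real.norm_eq_abs, sub_zero, abs_of_pos hL] at e2
    rw [e1, abs_div, abs_of_pos hL, div_le_iff₀ hL]
    exact e2
  have hosc : ∀ lam : ℝ, 0 < lam → ∀ x ∈ Icc 0 L, |Real.log (f x) - μ| ≤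
      (lam * y + L / lam) / 2 := by
    intro lam hlam
    apply hdev
    intro x hx z hz
    have h1 := osc_le hL hlam hlog hq (le_of_eq hy.symm) hz hx
    have h2 : |x - z| ≤ L := by
      rw [abs_le]
      constructor <;> linarith [hx.1, hx.2, hz.1, hz.2]
    have h3 : |x - z| / lam ≤ L / lam := div_le_div_of_nonneg_right h2 hlam.le
    linarith
  -- crude bound
  have hcr : ∀ x ∈ Icc 0 L, |Real.log (f x) - μ| ≤ 1 + L * K := by
    intro x hx
    have h1 := hosc L hL x hx
    have h2 : L / L = 1 := div_self hL.ne'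
    have h3 : L * y ≤ L * K := mul_le_mul_of_nonneg_left hyK hL.le
    have h4 : 0 ≤ L * K := mul_nonneg hL.le hK
    rw [h2] at h1
    linarith
  obtain ⟨E, hE⟩ : ∃ E, E = Real.exp (1 + L * K) := ⟨_, rfl⟩
  have hE0 : 0 < E := by rw [hE]; exact Real.exp_pos _
  have hE2 : Real.exp (2 * (1 + L * K)) = E ^ 2 := by
    rw [hE, ← Real.exp_nat_mul]
    norm_num
  rw [hE2]
  obtain ⟨G, hG⟩ : ∃ G, G = Real.exp μ := ⟨_, rfl⟩
  have hG0 : 0 < G := by rw [hG]; exact Real.exp_pos _
  rw [← hG]
  -- pointwise bound of `f - G`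
  have hpt : ∀ lam : ℝ, 0 < lam → ∀ x ∈ Icc 0 L, |f x - G| ≤
      G * ((lam * y + L / lam) / 2 * E) := by
    intro lam hlam x hx
    have e1 : f x - G = G * (Real.exp (Real.log (f x) - μ) - 1) := by
      rw [Real.exp_sub, Real.exp_log (hfB x hx), hG]
      have : Real.exp μ ≠ 0 := (Real.exp_pos μ).ne'
      field_simp
    rw [e1, abs_mul, abs_of_pos hG0]
    apply mul_le_mul_of_nonneg_left _ hG0.le
    refine (abs_exp_sub_one _).trans ?_
    have h1 : Real.exp |Real.log (f x) - μ| ≤ E := by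
      rw [hE]
      exact Real.exp_le_exp.2 (hcr x hx)
    exact mul_le_mul (hosc lam hlam x hx) h1 (Real.exp_pos _).le
      ((abs_nonneg _).trans (hosc lam hlam x hx))
  have e : ∫ x in (0)..L, f x * ψ x = ∫ x in (0)..L, (f x - G) * ψ x := by
    have e1 : ∫ x in (0)..L, (f x - G) * ψ x =
        (∫ x in (0)..L, f x * ψ x) - ∫ x in (0)..L, G * ψ x := by
      rw [← intervalIntegral.integral_sub]
      · apply intervalIntegral.integral_congr
        intro x _
        simp only
        ring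
      · exact (hfc.mul hψ).intervalIntegrable_of_Icc hL.le
      · exact (continuousOn_const.mul hψ).intervalIntegrable_of_Icc hL.le
    rw [e1, intervalIntegral.integral_const_mul, hψ0, mul_zero, sub_zero]
  rw [e]
  have hfin : ∀ lam : ℝ, 0 < lam → |∫ x in (0)..L, (f x - G) * ψ x| ≤
      G * ((lam * y + L / lam) / 2 * E) * P * L := by
    intro lam hlam
    have := intervalIntegral.norm_integral_le_of_norm_le_const (a := (0 : ℝ)) (b := L)
      (f := fun x => (f x - G) * ψ x) (C := G * ((lam * y + L / lam) / 2 * E) * P)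
      (fun x hx => by
        rw [uIoc_of_le hL.le] at hx
        have hx' : x ∈ Icc 0 L := ⟨hx.1.le, hx.2⟩
        rw [Real.norm_eq_abs, abs_mul]
        exact mul_le_mul (hpt lam hlam x hx') (hψP x hx') (abs_nonneg _)
          ((abs_nonneg _).trans (hpt lam hlam x hx')))
    rw [Real.norm_eq_abs, sub_zero, abs_of_pos hL] at this
    exact this
  rcases hP.eq_or_lt with h0 | hP0
  · have h1 := hfin 1 one_pos
    rw [← h0] at h1 ⊢
    have h2 : 0 ≤ G * κ := mul_nonneg hG0.le hκ.le
    calc _ ≤ _ := h1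
      _ = 0 := by ring
      _ ≤ G * κ := h2
      _ = _ := by ring
  · have h1 := hfin (L ^ 2 * P * E / (2 * κ)) (by positivity)
    refine h1.trans (le_of_eq ?_)
    field_simp
    ring

end Pool.Agent.Lib.MP_4fbe7c_an.FC.H78
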